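import Pool.Agent.helper78.FS.Spec

/-!
# fs:PTS: many separated points of the sphere
-/

set_option autoImplicit false

namespace Pool.Agent.helper78.FS

open Finset Real
open Classical

noncomputable section

/-- the points. -/
def PTS_f (r s : ℝ) (p : ℕ × ℕ) : E3 := !₂[s * p.1, s * p.2, √(r ^ 2 - (s * p.1) ^ 2 - (s * p.2) ^ 2)]

theorem PTS_0 (r s : ℝ) (p : ℕ × ℕ) : PTS_f r s p 0 = s * p.1 := rfl
theorem PTS_1 (r s : ℝ) (p : ℕ × ℕ) : PTS_f r s p 1 = s * p.2 := rfl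
theorem PTS_2 (r s : ℝ) (p : ℕ × ℕ) : PTS_f r s p 2 = √(r ^ 2 - (s * p.1) ^ 2 - (s * p.2) ^ 2) := rfl

theorem PTS_co (x y : E3) (k : Fin 3) : |x k - y k| ≤ dist x y := by
  rw [dist_eq_norm]
  have h := PiLp.norm_apply_le (x - y) k
  simpa using h

theorem PTS_nat (s : ℝ) (hs : 0 < s) (i j : ℕ) (h : i ≠ j) : s ≤ |s * (i : ℝ) - s * (j : ℝ)| := by
  rw [← mul_sub, abs_mul, abs_of_pos hs]
  have h1 : (1 : ℝ) ≤ |(i : ℝ) - (j : ℝ)| := by
    have h2 : (1 : ℤ) ≤ |(i : ℤ) - (j : ℤ)| := by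
      apply Int.one_le_abs
      omega
    have h3 : ((1 : ℤ) : ℝ) ≤ ((|(i : ℤ) - (j : ℤ)| : ℤ) : ℝ) := by exact_mod_cast h2
    simpa using h3
  nlinarith

theorem PTS_sep (r s : ℝ) (hs : 0 < s) (p q : ℕ × ℕ) (h : p ≠ q) : s ≤ dist (PTS_f r s p) (PTS_f r s q) := by
  by_cases h1 : p.1 = q.1
  · have h2 : p.2 ≠ q.2 := fun h3 => h (Prod.ext h1 h3)
    have h4 := PTS_co (PTS_f r s p) (PTS_f r s q) 1
    rw [PTS_1, PTS_1] at h4
    exact (PTS_nat s hs _ _ h2).trans h4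
  · have h4 := PTS_co (PTS_f r s p) (PTS_f r s q) 0
    rw [PTS_0, PTS_0] at h4
    exact (PTS_nat s hs _ _ h1).trans h4

theorem PTS : PTS_stmt := by
  intro r s hs hr
  set m : ℕ := ⌊r / (2 * s)⌋₊ with hm
  have hrs : 0 ≤ r / (2 * s) := by positivity
  have hinj : Function.Injective (PTS_f r s) := by
    intro p q hpq
    by_contra hne
    have h1 := PTS_sep r s hs p q hne
    rw [hpq, dist_self] at h1
    linarith
  refine ⟨(range (m + 1) ×ˢ range (m + 1)).image (PTS_f r s), ?_, ?_, ?_⟩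
  · intro p hp
    obtain ⟨⟨i, j⟩, hij, rfl⟩ := Finset.mem_image.1 hp
    obtain ⟨hi, hj⟩ := Finset.mem_product.1 hij
    have hb : ∀ k ∈ range (m + 1), (s * (k : ℝ)) ^ 2 ≤ r ^ 2 / 4 := by
      intro k hk
      have hk1 : k ≤ m := Nat.lt_succ_iff.1 (Finset.mem_range.1 hk)
      have hk2 : (k : ℝ) ≤ r / (2 * s) := by
        have h1 : (k : ℝ) ≤ (m : ℝ) := by exact_mod_cast hk1
        exact h1.trans (Nat.floor_le hrs)
      rw [le_div_iff₀ (by positivity)] at hk2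
      have hk3 : s * (k : ℝ) ≤ r / 2 := by linarith
      have hk4 : 0 ≤ s * (k : ℝ) := by positivity
      nlinarith
    have hbi := hb i hi
    have hbj := hb j hj
    have hnn : 0 ≤ r ^ 2 - (s * (i : ℝ)) ^ 2 - (s * (j : ℝ)) ^ 2 := by nlinarith [sq_nonneg r]
    rw [EuclideanSpace.norm_eq, Fin.sum_univ_three, PTS_0, PTS_1, PTS_2]
    simp only [Real.norm_eq_abs, sq_abs]
    rw [Real.sq_sqrt hnn]
    have h2 : (s * (i : ℝ)) ^ 2 + (s * (j : ℝ)) ^ 2 + (r ^ 2 - (s * (i : ℝ)) ^ 2 - (s * (j : ℝ)) ^ 2) = r ^ 2 := by ring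
    rw [h2, Real.sqrt_sq hr.le]
  · intro p hp q hq hne
    obtain ⟨a, -, rfl⟩ := Finset.mem_image.1 hp
    obtain ⟨b, -, rfl⟩ := Finset.mem_image.1 hq
    exact PTS_sep r s hs a b (fun h => hne (by rw [h]))
  · rw [Finset.card_image_of_injective _ hinj, Finset.card_product, Finset.card_range]
    have h1 : r / (2 * s) ≤ (m : ℝ) + 1 := (Nat.lt_floor_add_one _).le
    push_cast
    nlinarith

end

end Pool.Agent.helper78.FS
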